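import Mathlib
import Pool.Agent.Q132.CPoly.Edge

open Set

namespace Pool.Agent.Results.MP_625e57_gt.Orientation

/-- `ℝ^{3,1}`. -/
abbrev R31 : Type := Fin 4 → ℝ

/-- The Lorentz form. -/
def lor (u w : R31) : ℝ := u 0 * w 0 + u 1 * w 1 + u 2 * w 2 - u 3 * w 3

/-- The open disk of the unit sphere given by the vector `n`. -/
def disk (n : R31) : Set (Fin 3 → ℝ) :=
  {x | x 0 ^ 2 + x 1 ^ 2 + x 2 ^ 2 = 1 ∧ 0 < n 0 * x 0 + n 1 * x 1 + n 2 * x 2 - n 3}

/-- The inversive distance. -/
noncomputable def inv (u w : R31) : ℝ := -lor u w / (√(lor u u) * √(lor w w))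

section defs

variable {V : Type} [Fintype V]

/-- The cone generated by the vectors `n v`. -/
def cone (n : V → R31) : Set R31 := {x | ∃ c : V → ℝ, (∀ v, 0 ≤ c v) ∧ x = ∑ v, c v • n v}

/-- The vectors `n v` are spacelike and are the vertex rays of a convex polyhedral cone with apex
at the origin: the cone they generate is pointed and four-dimensional, and none of them is a
nonnegative combination of the others (so they span exactly the extreme rays, once each). -/
structure IsConvexCPoly (n : V → R31) : Prop where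
  spacelike : ∀ v, 0 < lor (n v) (n v)
  pointed : ∃ a : R31, ∀ v, 0 < lor a (n v)
  full : Submodule.span ℝ (range n) = ⊤
  extreme : ∀ v, ¬ ∃ c : V → ℝ, (∀ w, 0 ≤ c w) ∧ c v = 0 ∧ n v = ∑ w, c w • n w

/-- Adjacency in the 1-skeleton: the rays of `v ≠ w` span a two-dimensional face of the cone. -/
def Adj (n : V → R31) (v w : V) : Prop :=
  v ≠ w ∧ ∃ a : R31, lor a (n v) = 0 ∧ lor a (n w) = 0 ∧ ∀ u, u ≠ v → u ≠ w → 0 < lor a (n u)

/-- `a` is the Lorentz normal of the supporting hyperplane of the cone along a facet. -/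
def IsFacetNormal (n : V → R31) (a : R31) : Prop :=
  (∀ v, 0 ≤ lor a (n v)) ∧ a ≠ 0 ∧
    Module.finrank ℝ (Submodule.span ℝ {x | ∃ v, lor a (n v) = 0 ∧ x = n v}) = 3

/-- Hyperbolicity: the hyperplane of every facet meets the interior of the light cone. -/
def Hyperbolic (n : V → R31) : Prop :=
  ∀ a, IsFacetNormal n a → ∃ x : R31, lor a x = 0 ∧ lor x x < 0

/-- Every support hyperplane of the cone, at a face of any dimension, meets the interior of the
light cone. -/
def StronglyHyperbolic (n : V → R31) : Prop :=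
  ∀ a : R31, a ≠ 0 → (∀ v, 0 ≤ lor a (n v)) → (∃ v, lor a (n v) = 0) →
    ∃ x : R31, lor a x = 0 ∧ lor x x < 0

/-- The condition on a pair of disks. -/
def ShallowPair (u w : R31) : Prop := 0 < inv u w ∧ (1 ≤ inv u w → disk u ∩ disk w = ∅)

/-- Local shallowness. -/
def LocallyShallow (n : V → R31) : Prop := ∀ v w, Adj n v w → ShallowPair (n v) (n w)

/-- Global shallowness. -/
def GloballyShallow (n : V → R31) : Prop := ∀ v w, v ≠ w → ShallowPair (n v) (n w)

end defs

/-! ### Algebra of the Lorentz form -/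

lemma lor_comm (u w : R31) : lor u w = lor w u := by unfold lor; ring

lemma lor_add_right (u w z : R31) : lor u (w + z) = lor u w + lor u z := by
  simp only [lor, Pi.add_apply]; ring

lemma lor_smul_right (u w : R31) (c : ℝ) : lor u (c • w) = c * lor u w := by
  simp only [lor, Pi.smul_apply, smul_eq_mul]; ring

lemma lor_zero_right (u : R31) : lor u 0 = 0 := by simp [lor]

lemma lor_sum_right {V : Type} [Fintype V] (u : R31) (n : V → R31) (c : V → ℝ) :
    lor u (∑ v, c v • n v) = ∑ v, c v * lor u (n v) := by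
  classical
  have : ∀ s : Finset V, lor u (∑ v ∈ s, c v • n v) = ∑ v ∈ s, c v * lor u (n v) := by
    intro s
    induction s using Finset.induction_on with
    | empty => simp [lor_zero_right]
    | insert a s ha ih => rw [Finset.sum_insert ha, Finset.sum_insert ha, lor_add_right,
        lor_smul_right, ih]
  exact this _

lemma lor_neg_neg (u w : R31) : lor (-u) (-w) = lor u w := by
  simp only [lor, Pi.neg_apply]; ring

lemma inv_comm (u w : R31) : inv u w = inv w u := by
  unfold inv; rw [lor_comm u w, mul_comm]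

lemma inv_neg_neg (u w : R31) : inv (-u) (-w) = inv u w := by
  unfold inv; rw [lor_neg_neg, lor_neg_neg, lor_neg_neg]

lemma inv_pos_iff {u w : R31} (hu : 0 < lor u u) (hw : 0 < lor w w) :
    0 < inv u w ↔ lor u w < 0 := by
  unfold inv
  have : 0 < √(lor u u) * √(lor w w) := mul_pos (Real.sqrt_pos.2 hu) (Real.sqrt_pos.2 hw)
  rw [lt_div_iff₀ this]
  constructor <;> intro h <;> linarith

lemma one_le_inv_iff {u w : R31} (hu : 0 < lor u u) (hw : 0 < lor w w) :
    1 ≤ inv u w ↔ lor u w + √(lor u u) * √(lor w w) ≤ 0 := by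
  unfold inv
  have : 0 < √(lor u u) * √(lor w w) := mul_pos (Real.sqrt_pos.2 hu) (Real.sqrt_pos.2 hw)
  rw [le_div_iff₀ this]
  constructor <;> intro h <;> linarith

/-- The sum of the normalised vectors, up to a positive factor. -/
noncomputable def qq (u w : R31) : R31 := √(lor w w) • u + √(lor u u) • w

lemma lor_qq (z u w : R31) :
    lor z (qq u w) = √(lor w w) * lor z u + √(lor u u) * lor z w := by
  unfold qq; rw [lor_add_right, lor_smul_right, lor_smul_right]

lemma lor_left_qq {u w : R31} (hu : 0 < lor u u) :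
    lor u (qq u w) = √(lor u u) * (lor u w + √(lor u u) * √(lor w w)) := by
  rw [lor_qq]
  have h1 : √(lor u u) * √(lor u u) = lor u u := Real.mul_self_sqrt hu.le
  rw [← h1]
  have h2 : √(√(lor u u) * √(lor u u)) = √(lor u u) := by rw [h1]
  rw [h2]; ring

lemma lor_right_qq {u w : R31} (hw : 0 < lor w w) :
    lor w (qq u w) = √(lor w w) * (lor u w + √(lor u u) * √(lor w w)) := by
  rw [lor_qq]
  have h1 : √(lor w w) * √(lor w w) = lor w w := Real.mul_self_sqrt hw.le
  rw [lor_comm w u, ← h1]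
  have h2 : √(√(lor w w) * √(lor w w)) = √(lor w w) := by rw [h1]
  rw [h2]; ring

lemma lor_qq_qq {u w : R31} (hu : 0 < lor u u) (hw : 0 < lor w w) :
    lor (qq u w) (qq u w) =
      2 * (√(lor u u) * √(lor w w)) * (lor u w + √(lor u u) * √(lor w w)) := by
  rw [lor_qq, lor_comm (qq u w) u, lor_comm (qq u w) w, lor_left_qq hu, lor_right_qq hw]; ring

/-- (i) If `qq u w` is causal and future directed then the disks are disjoint. -/
lemma disjoint_of_future {u w : R31} (hu : 0 < lor u u) (hw : 0 < lor w w)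
    (h1 : lor (qq u w) (qq u w) ≤ 0) (h2 : 0 < qq u w 3) : disk u ∩ disk w = ∅ := by
  rw [eq_empty_iff_forall_notMem]
  rintro x ⟨⟨hx, hxu⟩, -, hxw⟩
  set q := qq u w with hq
  have h3 : q 0 * x 0 + q 1 * x 1 + q 2 * x 2 ≤ q 3 := by
    apply abs_le_of_sq_le_sq' _ h2.le |>.2
    have hcs : (q 0 * x 0 + q 1 * x 1 + q 2 * x 2) ^ 2 ≤
        (q 0 ^ 2 + q 1 ^ 2 + q 2 ^ 2) * (x 0 ^ 2 + x 1 ^ 2 + x 2 ^ 2) := by
      nlinarith [sq_nonneg (q 0 * x 1 - q 1 * x 0), sq_nonneg (q 0 * x 2 - q 2 * x 0),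
        sq_nonneg (q 1 * x 2 - q 2 * x 1)]
    rw [hx, mul_one] at hcs
    unfold lor at h1
    nlinarith
  have h4 : q 0 * x 0 + q 1 * x 1 + q 2 * x 2 - q 3 =
      √(lor w w) * (u 0 * x 0 + u 1 * x 1 + u 2 * x 2 - u 3) +
      √(lor u u) * (w 0 * x 0 + w 1 * x 1 + w 2 * x 2 - w 3) := by
    rw [hq]; unfold qq
    simp only [Pi.add_apply, Pi.smul_apply, smul_eq_mul]; ring
  have h5 := mul_pos (Real.sqrt_pos.2 hw) hxu
  have h6 := mul_pos (Real.sqrt_pos.2 hu) hxw
  linarith

/-- A nonzero vector of `ℝ^3` orthogonal to two given ones. -/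
lemma exists_perp (u w : R31) : ∃ e : Fin 3 → ℝ, e ≠ 0 ∧
    u 0 * e 0 + u 1 * e 1 + u 2 * e 2 = 0 ∧ w 0 * e 0 + w 1 * e 1 + w 2 * e 2 = 0 := by
  let f : (Fin 3 → ℝ) →ₗ[ℝ] (Fin 2 → ℝ) := Matrix.mulVecLin !![u 0, u 1, u 2; w 0, w 1, w 2]
  have hker : LinearMap.ker f ≠ ⊥ := LinearMap.ker_ne_bot_of_finrank_lt (by simp)
  obtain ⟨e, he, he0⟩ := Submodule.exists_mem_ne_zero_of_ne_bot hker
  have h1 : f e = 0 := he
  refine ⟨e, he0, ?_, ?_⟩
  · have := congrFun h1 0
    simpa [f, Matrix.mulVec, dotProduct, Fin.sum_univ_succ, add_assoc] using this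
  · have := congrFun h1 1
    simpa [f, Matrix.mulVec, dotProduct, Fin.sum_univ_succ, add_assoc] using this

/-- (ii) If `qq u w` is causal and past directed then the disks meet (given a vector `a` with
positive products with `u` and `w`). -/
lemma nonempty_of_past {u w a : R31} (hu : 0 < lor u u) (hw : 0 < lor w w)
    (hau : 0 < lor a u) (haw : 0 < lor a w) (h0 : lor u w + √(lor u u) * √(lor w w) ≤ 0)
    (h2 : qq u w 3 < 0) : (disk u ∩ disk w).Nonempty := by
  have hsu := Real.sqrt_pos.2 hu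
  have hsw := Real.sqrt_pos.2 hw
  set q := qq u w with hq
  have h1 : lor q q ≤ 0 := by
    rw [hq, lor_qq_qq hu hw]
    exact mul_nonpos_of_nonneg_of_nonpos (by positivity) h0
  have haq : 0 < lor a q := by
    rw [hq, lor_qq]; positivity
  -- a timelike future vector `t` with positive products
  obtain ⟨η, hη, hη1, hη2⟩ : ∃ η : ℝ, 0 < η ∧ η * |lor a a| < 2 * lor a q ∧
      η * |a 3| < -q 3 := by
    refine ⟨min (lor a q / (|lor a a| + 1)) (-q 3 / (|a 3| + 1)) , ?_, ?_, ?_⟩
    · refine lt_min (by positivity) ?_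
      have : 0 < -q 3 := by linarith
      positivity
    · calc min (lor a q / (|lor a a| + 1)) (-q 3 / (|a 3| + 1)) * |lor a a|
          ≤ lor a q / (|lor a a| + 1) * |lor a a| := by gcongr; exact min_le_left _ _
        _ ≤ lor a q := by
          rw [div_mul_eq_mul_div, div_le_iff₀ (by positivity)]
          nlinarith [abs_nonneg (lor a a)]
        _ < 2 * lor a q := by linarith
    · have h3 : 0 < -q 3 := by linarith
      calc min (lor a q / (|lor a a| + 1)) (-q 3 / (|a 3| + 1)) * |a 3|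
          ≤ -q 3 / (|a 3| + 1) * |a 3| := by gcongr; exact min_le_right _ _
        _ < -q 3 := by
          rw [div_mul_eq_mul_div, div_lt_iff₀ (by positivity)]
          nlinarith [abs_nonneg (a 3)]
  set t : R31 := -q + η • a with ht
  have ht3 : 0 < t 3 := by
    have : t 3 = -q 3 + η * a 3 := by simp [ht]
    rw [this]
    have h3 := neg_abs_le (a 3)
    nlinarith
  have htt : lor t t < 0 := by
    have h3 : lor t t = lor q q - η * (2 * lor a q - η * lor a a) := by
      simp only [ht, lor, Pi.add_apply, Pi.neg_apply, Pi.smul_apply, smul_eq_mul]; ring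
    rw [h3]
    have h4 : 0 < 2 * lor a q - η * lor a a := by
      have := le_abs_self (lor a a)
      nlinarith
    nlinarith [mul_pos hη h4]
  have htu : 0 < lor u t := by
    have h3 : lor u t = -lor u q + η * lor a u := by
      simp only [ht, lor, Pi.add_apply, Pi.neg_apply, Pi.smul_apply, smul_eq_mul]; ring
    rw [h3, hq, lor_left_qq hu]
    have := mul_nonpos_of_nonneg_of_nonpos hsu.le h0
    have := mul_pos hη hau
    linarith
  have htw : 0 < lor w t := by
    have h3 : lor w t = -lor w q + η * lor a w := by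
      simp only [ht, lor, Pi.add_apply, Pi.neg_apply, Pi.smul_apply, smul_eq_mul]; ring
    rw [h3, hq, lor_right_qq hw]
    have := mul_nonpos_of_nonneg_of_nonpos hsw.le h0
    have := mul_pos hη haw
    linarith
  -- move in a direction orthogonal to both
  obtain ⟨e, he0, heu, hew⟩ := exists_perp u w
  set A : ℝ := e 0 ^ 2 + e 1 ^ 2 + e 2 ^ 2 with hA
  have hApos : 0 < A := by
    rcases lt_or_eq_of_le (show 0 ≤ A by positivity) with h | h
    · exact h
    · exfalso
      apply he0
      have h0' : e 0 = 0 := by nlinarith [sq_nonneg (e 0), sq_nonneg (e 1), sq_nonneg (e 2)]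
      have h1' : e 1 = 0 := by nlinarith [sq_nonneg (e 0), sq_nonneg (e 1), sq_nonneg (e 2)]
      have h2' : e 2 = 0 := by nlinarith [sq_nonneg (e 0), sq_nonneg (e 1), sq_nonneg (e 2)]
      funext i
      fin_cases i <;> simpa
  set B : ℝ := t 0 * e 0 + t 1 * e 1 + t 2 * e 2 with hB
  set Cc : ℝ := t 3 ^ 2 - (t 0 ^ 2 + t 1 ^ 2 + t 2 ^ 2) with hC
  have hCpos : 0 < Cc := by
    have : lor t t = -Cc := by simp only [lor, hC]; ring
    linarith
  set s : ℝ := (-B + √(B ^ 2 + A * Cc)) / A with hs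
  have hsq : A * s ^ 2 + 2 * B * s = Cc := by
    have h3 : √(B ^ 2 + A * Cc) ^ 2 = B ^ 2 + A * Cc := Real.sq_sqrt (by positivity)
    have h4 : A * s = -B + √(B ^ 2 + A * Cc) := by rw [hs]; field_simp
    have h5 : (A * s + B) ^ 2 = B ^ 2 + A * Cc := by rw [h4]; ring_nf; ring_nf at h3; exact h3
    have h6 : A * (A * s ^ 2 + 2 * B * s) = A * Cc := by linear_combination h5
    exact mul_left_cancel₀ hApos.ne' h6
  refine ⟨fun i => (t (Fin.castSucc i) + s * e i) / t 3, ⟨?_, ?_⟩, ?_, ?_⟩
  · simp only [div_pow]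
    rw [← add_div, ← add_div, div_eq_one_iff_eq (by positivity)]
    change (t 0 + s * e 0) ^ 2 + (t 1 + s * e 1) ^ 2 + (t 2 + s * e 2) ^ 2 = t 3 ^ 2
    linear_combination hsq
  · change 0 < u 0 * ((t 0 + s * e 0) / t 3) + u 1 * ((t 1 + s * e 1) / t 3) +
      u 2 * ((t 2 + s * e 2) / t 3) - u 3
    have h3 : u 0 * ((t 0 + s * e 0) / t 3) + u 1 * ((t 1 + s * e 1) / t 3) +
      u 2 * ((t 2 + s * e 2) / t 3) - u 3 = (lor u t + s * (u 0 * e 0 + u 1 * e 1 + u 2 * e 2))
        / t 3 := by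
      unfold lor; field_simp; ring
    rw [h3, heu, mul_zero, add_zero]
    exact div_pos htu ht3
  · simp only [div_pow]
    rw [← add_div, ← add_div, div_eq_one_iff_eq (by positivity)]
    change (t 0 + s * e 0) ^ 2 + (t 1 + s * e 1) ^ 2 + (t 2 + s * e 2) ^ 2 = t 3 ^ 2
    linear_combination hsq
  · change 0 < w 0 * ((t 0 + s * e 0) / t 3) + w 1 * ((t 1 + s * e 1) / t 3) +
      w 2 * ((t 2 + s * e 2) / t 3) - w 3
    have h3 : w 0 * ((t 0 + s * e 0) / t 3) + w 1 * ((t 1 + s * e 1) / t 3) +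
      w 2 * ((t 2 + s * e 2) / t 3) - w 3 = (lor w t + s * (w 0 * e 0 + w 1 * e 1 + w 2 * e 2))
        / t 3 := by
      unfold lor; field_simp; ring
    rw [h3, hew, mul_zero, add_zero]
    exact div_pos htw ht3

/-! ### The positive part -/

section positive

variable {V : Type} [Fintype V]

/-- A functional as a Lorentz product. -/
lemma exists_lor (b : R31 →L[ℝ] ℝ) : ∃ a : R31, ∀ x, b x = lor a x := by
  refine ⟨![b (Pi.single 0 1), b (Pi.single 1 1), b (Pi.single 2 1), -b (Pi.single 3 1)], ?_⟩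
  intro x
  have hx : x = x 0 • Pi.single 0 (1 : ℝ) + x 1 • Pi.single 1 (1 : ℝ) +
      x 2 • Pi.single 2 (1 : ℝ) + x 3 • Pi.single 3 (1 : ℝ) := by
    funext i
    fin_cases i <;> simp
  conv_lhs => rw [hx]
  simp only [map_add, map_smul, smul_eq_mul, lor]
  simp
  ring

/-- The Lorentz product as a functional. -/
noncomputable def lorL (a : R31) : R31 →L[ℝ] ℝ :=
  LinearMap.toContinuousLinearMap
    { toFun := lor a
      map_add' := lor_add_right a
      map_smul' := fun c x => lor_smul_right a x c }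

lemma lorL_apply (a x : R31) : lorL a x = lor a x := rfl

/-- In a convex polyhedral cone with negative products along edges, all products are negative. -/
lemma lor_neg_of_local {n : V → R31} (h : IsConvexCPoly n)
    (hloc : ∀ v w, Adj n v w → lor (n v) (n w) < 0) : ∀ v u, u ≠ v → lor (n v) (n u) < 0 := by
  classical
  intro v u huv
  obtain ⟨a, ha⟩ := h.pointed
  obtain ⟨α, c, hc1, hc2, hc3⟩ := Pool.Agent.Q132.CPoly.edge_expansion (n := n) h.extreme
    (lorL a) (fun v => ha v) v u huv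
  have hadj : ∀ w, c w ≠ 0 → Adj n v w := by
    intro w hw
    obtain ⟨h1, b, h2, h3, h4⟩ := hc2 w hw
    obtain ⟨a', ha'⟩ := exists_lor b
    refine ⟨h1, a', ?_, ?_, ?_⟩
    · rw [← ha', h2]
    · rw [← ha', h3]
    · intro u h5 h6
      rw [← ha']; exact h4 u h5 h6
  by_cases hadjvu : Adj n v u
  · exact hloc v u hadjvu
  have hcu : c u = 0 := by
    by_contra hcon
    exact hadjvu (hadj u hcon)
  have hα : α < 0 := by
    by_contra hcon
    push Not at hcon
    apply h.extreme u
    refine ⟨fun w => (if w = v then α else 0) + c w, ?_, ?_, ?_⟩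
    · intro w
      have := hc1 w
      dsimp only
      split_ifs <;> positivity
    · simp [huv, hcu]
    · simp_rw [add_smul]
      rw [Finset.sum_add_distrib]
      simp only [ite_smul, zero_smul, Finset.sum_ite_eq', Finset.mem_univ, if_true]
      exact hc3
  rw [hc3, lor_add_right, lor_smul_right, lor_sum_right]
  have h1 : ∑ w, c w * lor (n v) (n w) ≤ 0 := by
    apply Finset.sum_nonpos
    intro w _
    by_cases hw : c w = 0
    · rw [hw, zero_mul]
    · exact mul_nonpos_of_nonneg_of_nonpos (hc1 w) (hloc v w (hadj w hw)).le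
  have h2 := mul_neg_of_neg_of_pos hα (h.spacelike v)
  linarith

/-- All inversive distances of a locally shallow convex c-polyhedron are positive. -/
lemma lor_neg {n : V → R31} (h : IsConvexCPoly n) (hloc : LocallyShallow n) :
    ∀ v u, u ≠ v → lor (n v) (n u) < 0 :=
  lor_neg_of_local h fun v w hvw =>
    (inv_pos_iff (h.spacelike v) (h.spacelike w)).1 (hloc v w hvw).1

lemma qq_mem_cone {n : V → R31} {v w : V} (hvw : v ≠ w) : qq (n v) (n w) ∈ cone n := by
  classical
  refine ⟨fun s => if s = v then √(lor (n w) (n w)) else if s = w then √(lor (n v) (n v)) else 0,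
    ?_, ?_⟩
  · intro s; dsimp only; split_ifs <;> positivity
  · rw [Pool.Agent.Q132.CPoly.sum_two n hvw]; rfl

lemma qq_facts {n : V → R31} (h : IsConvexCPoly n) {v w : V}
    (hinv : 1 ≤ inv (n v) (n w)) :
    lor (qq (n v) (n w)) (qq (n v) (n w)) ≤ 0 ∧ qq (n v) (n w) 3 ≠ 0 := by
  have hv := h.spacelike v
  have hw := h.spacelike w
  have h0 := (one_le_inv_iff hv hw).1 hinv
  have h1 : lor (qq (n v) (n w)) (qq (n v) (n w)) ≤ 0 := by
    rw [lor_qq_qq hv hw]
    exact mul_nonpos_of_nonneg_of_nonpos (by positivity) h0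
  refine ⟨h1, ?_⟩
  intro h3
  obtain ⟨a, ha⟩ := h.pointed
  have haq : 0 < lor a (qq (n v) (n w)) := by
    rw [lor_qq]
    have := ha v
    have := ha w
    have := Real.sqrt_pos.2 hv
    have := Real.sqrt_pos.2 hw
    positivity
  set q := qq (n v) (n w) with hq
  have h4 : q = 0 := by
    unfold lor at h1
    rw [h3] at h1
    have e0 : q 0 = 0 := by nlinarith [sq_nonneg (q 0), sq_nonneg (q 1), sq_nonneg (q 2)]
    have e1 : q 1 = 0 := by nlinarith [sq_nonneg (q 0), sq_nonneg (q 1), sq_nonneg (q 2)]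
    have e2 : q 2 = 0 := by nlinarith [sq_nonneg (q 0), sq_nonneg (q 1), sq_nonneg (q 2)]
    funext i
    fin_cases i <;> simpa
  rw [h4, lor_zero_right] at haq
  exact lt_irrefl _ haq

/-- If the cone contains a future causal vector then all the `qq` are future directed. -/
lemma future_of_future {n : V → R31} (h : IsConvexCPoly n) (hneg : ∀ v u, u ≠ v →
    lor (n v) (n u) < 0) {f : R31} (hf : f ∈ cone n) (hff : lor f f ≤ 0) (hf3 : 0 < f 3)
    {v w : V} (hinv : 1 ≤ inv (n v) (n w)) : 0 < qq (n v) (n w) 3 := by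
  obtain ⟨h1, h3⟩ := qq_facts h hinv
  have hv := h.spacelike v
  have hw := h.spacelike w
  have h0 := (one_le_inv_iff hv hw).1 hinv
  obtain ⟨a, ha⟩ := h.pointed
  have haq : 0 < lor a (qq (n v) (n w)) := by
    rw [lor_qq]
    have := ha v
    have := ha w
    have := Real.sqrt_pos.2 hv
    have := Real.sqrt_pos.2 hw
    positivity
  have hfq : lor (qq (n v) (n w)) f ≤ 0 := by
    obtain ⟨c, hc, rfl⟩ := hf
    rw [lor_sum_right]
    apply Finset.sum_nonpos
    intro u _
    apply mul_nonpos_of_nonneg_of_nonpos (hc u)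
    rw [lor_comm]
    by_cases huv : u = v
    · subst huv
      rw [lor_left_qq hv]
      exact mul_nonpos_of_nonneg_of_nonpos (Real.sqrt_nonneg _) h0
    · by_cases huw : u = w
      · subst huw
        rw [lor_right_qq hw]
        exact mul_nonpos_of_nonneg_of_nonpos (Real.sqrt_nonneg _) h0
      · rw [lor_qq]
        have e1 := hneg u v (Ne.symm huv)
        have e2 := hneg u w (Ne.symm huw)
        have e3 := mul_nonpos_of_nonneg_of_nonpos (Real.sqrt_nonneg (lor (n w) (n w))) e1.le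
        have e4 := mul_nonpos_of_nonneg_of_nonpos (Real.sqrt_nonneg (lor (n v) (n v))) e2.le
        linarith
  have haf : 0 ≤ lor a f := by
    obtain ⟨c, hc, rfl⟩ := hf
    rw [lor_sum_right]
    exact Finset.sum_nonneg fun u _ => mul_nonneg (hc u) (ha u).le
  set q := qq (n v) (n w) with hq
  by_contra hcon
  have hq3 : q 3 < 0 := lt_of_le_of_ne (not_lt.1 hcon) h3
  set σ : ℝ := f 3 / (-q 3) with hσ
  have hσpos : 0 < σ := div_pos hf3 (by linarith)
  set x : R31 := f + σ • q with hx
  have hx3 : x 3 = 0 := by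
    simp only [hx, hσ, Pi.add_apply, Pi.smul_apply, smul_eq_mul]
    have : -q 3 ≠ 0 := by intro h; linarith
    field_simp
    ring
  have hxx : lor x x ≤ 0 := by
    have e : lor x x = lor f f + 2 * (σ * lor q f) + σ ^ 2 * lor q q := by
      simp only [hx, lor, Pi.add_apply, Pi.smul_apply, smul_eq_mul]; ring
    rw [e]
    have e1 := mul_nonpos_of_nonneg_of_nonpos hσpos.le hfq
    have e2 := mul_nonpos_of_nonneg_of_nonpos (sq_nonneg σ) h1
    linarith
  have hx0 : x = 0 := by
    unfold lor at hxx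
    rw [hx3] at hxx
    have e0 : x 0 = 0 := by nlinarith [sq_nonneg (x 0), sq_nonneg (x 1), sq_nonneg (x 2)]
    have e1 : x 1 = 0 := by nlinarith [sq_nonneg (x 0), sq_nonneg (x 1), sq_nonneg (x 2)]
    have e2 : x 2 = 0 := by nlinarith [sq_nonneg (x 0), sq_nonneg (x 1), sq_nonneg (x 2)]
    funext i
    fin_cases i <;> simpa
  have hax : 0 < lor a x := by
    rw [hx, lor_add_right, lor_smul_right]
    have := mul_pos hσpos haq
    linarith
  rw [hx0, lor_zero_right] at hax
  exact lt_irrefl _ hax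

lemma qq_neg (u w : R31) : qq (-u) (-w) = -qq u w := by
  unfold qq
  rw [lor_neg_neg, lor_neg_neg]
  simp [add_comm]

end positive

/-! ### The octahedron -/

/-- The six vertices of the example. -/
def oct : Fin 6 → R31 :=
  ![![3, 0, 0, -2], ![-3, 0, 0, -2], ![0, 3, 0, -2], ![0, -3, 0, -2], ![0, 0, 3, -2],
    ![0, 0, -3, -2]]

lemma lor_oct (a : R31) (v : Fin 6) : lor a (oct v) =
    ![3 * a 0 + 2 * a 3, -3 * a 0 + 2 * a 3, 3 * a 1 + 2 * a 3, -3 * a 1 + 2 * a 3,
      3 * a 2 + 2 * a 3, -3 * a 2 + 2 * a 3] v := by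
  fin_cases v <;> simp [lor, oct] <;> ring

lemma oct_convex : IsConvexCPoly oct where
  spacelike v := by fin_cases v <;> simp [lor, oct] <;> norm_num
  pointed := by
    refine ⟨![0, 0, 0, 1], fun v => ?_⟩
    fin_cases v <;> simp [lor, oct]
  full := by
    rw [eq_top_iff]
    intro x _
    have hm : ∀ v, oct v ∈ Submodule.span ℝ (range oct) :=
      fun v => Submodule.subset_span ⟨v, rfl⟩
    have hx : x = (x 0 / 6) • oct 0 + (-(x 0 / 6)) • oct 1 + (x 1 / 6) • oct 2 +
        (-(x 1 / 6)) • oct 3 + (x 2 / 6 - x 3 / 4) • oct 4 + (-(x 2 / 6) - x 3 / 4) • oct 5 := by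
      funext i
      fin_cases i <;> simp [oct] <;> ring
    rw [hx]
    refine Submodule.add_mem _ (Submodule.add_mem _ (Submodule.add_mem _ (Submodule.add_mem _
      (Submodule.add_mem _ ?_ ?_) ?_) ?_) ?_) ?_ <;> exact Submodule.smul_mem _ _ (hm _)
  extreme v := by
    rintro ⟨c, hc, hcv, heq⟩
    have h0 := hc 0
    have h1 := hc 1
    have h2 := hc 2
    have h3 := hc 3
    have h4 := hc 4
    have h5 := hc 5
    have e0 := congrFun heq 0
    have e1 := congrFun heq 1
    have e2 := congrFun heq 2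
    have e3 := congrFun heq 3
    fin_cases v <;> simp [oct, Fin.sum_univ_succ] at e0 e1 e2 e3 hcv <;> linarith

lemma inv_oct_adj : ∀ v w : Fin 6, Adj oct v w → lor (oct v) (oct w) = -4 := by
  rintro v w ⟨hvw, a, h1, h2, h3⟩
  rw [lor_oct] at h1 h2
  have k0 := h3 0
  have k1 := h3 1
  have k2 := h3 2
  have k3 := h3 3
  have k4 := h3 4
  have k5 := h3 5
  rw [lor_oct] at k0 k1 k2 k3 k4 k5
  fin_cases v <;> fin_cases w <;>
    first
    | exact absurd rfl hvw
    | (simp [lor, oct]; norm_num; done)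
    | (simp [lor, oct]; done)
    | (exfalso
       simp at h1 h2 k0 k1 k2 k3 k4 k5
       linarith)

lemma lor_oct_self (v : Fin 6) : lor (oct v) (oct v) = 5 := by
  fin_cases v <;> simp [lor, oct] <;> norm_num

lemma oct_local : LocallyShallow oct := by
  intro v w hvw
  have h1 := inv_oct_adj v w hvw
  have h2 : inv (oct v) (oct w) = 4 / 5 := by
    unfold inv
    rw [h1, lor_oct_self, lor_oct_self, Real.mul_self_sqrt (by norm_num)]
    norm_num
  refine ⟨by rw [h2]; norm_num, fun h3 => ?_⟩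
  rw [h2] at h3
  norm_num at h3

lemma oct_not_global : ¬ GloballyShallow oct := by
  intro h
  have h1 := (h 0 1 (by decide)).2
  have h2 : inv (oct 0) (oct 1) = 13 / 5 := by
    unfold inv
    rw [lor_oct_self, lor_oct_self, Real.mul_self_sqrt (by norm_num)]
    simp [lor, oct]
    norm_num
  have h3 := h1 (by rw [h2]; norm_num)
  have h4 : (![0, 1, 0] : Fin 3 → ℝ) ∈ disk (oct 0) ∩ disk (oct 1) := by
    constructor <;> constructor <;> simp [oct]
  rw [h3] at h4
  exact h4

lemma oct_hyperbolic : Hyperbolic oct := by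
  rintro a ⟨h1, h2, h3⟩
  have k0 := h1 0
  have k1 := h1 1
  have k2 := h1 2
  have k3 := h1 3
  have k4 := h1 4
  have k5 := h1 5
  rw [lor_oct] at k0 k1 k2 k3 k4 k5
  simp at k0 k1 k2 k3 k4 k5
  have ha3 : 0 < a 3 := by
    by_contra hcon
    apply h2
    funext i
    fin_cases i <;> simp <;> linarith
  -- each coordinate is `± 2 a₃ / 3`
  have key : ∀ i j : Fin 6, (i = 0 ∧ j = 1) ∨ (i = 2 ∧ j = 3) ∨ (i = 4 ∧ j = 5) →
      lor a (oct i) = 0 ∨ lor a (oct j) = 0 := by
    intro i j hij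
    by_contra hcon
    push Not at hcon
    -- the zero set has at most two elements
    have hz : ∃ p q : Fin 6, {x | ∃ v, lor a (oct v) = 0 ∧ x = oct v} ⊆ {oct p, oct q} := by
      have m0 := lor_oct a 0
      have m1 := lor_oct a 1
      have m2 := lor_oct a 2
      have m3 := lor_oct a 3
      have m4 := lor_oct a 4
      have m5 := lor_oct a 5
      simp at m0 m1 m2 m3 m4 m5
      have x01 : ¬ (lor a (oct 0) = 0 ∧ lor a (oct 1) = 0) := by
        rintro ⟨e1, e2⟩; linarith
      have x23 : ¬ (lor a (oct 2) = 0 ∧ lor a (oct 3) = 0) := by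
        rintro ⟨e1, e2⟩; linarith
      have x45 : ¬ (lor a (oct 4) = 0 ∧ lor a (oct 5) = 0) := by
        rintro ⟨e1, e2⟩; linarith
      obtain ⟨p, hp⟩ : ∃ p : Fin 6, ∀ v : Fin 6, (v = 0 ∨ v = 1) → lor a (oct v) = 0 → v = p := by
        by_cases e : lor a (oct 0) = 0
        · refine ⟨0, ?_⟩
          rintro v (rfl | rfl) hv
          · rfl
          · exact absurd ⟨e, hv⟩ x01
        · refine ⟨1, ?_⟩
          rintro v (rfl | rfl) hv
          · exact absurd hv e
          · rfl
      obtain ⟨q, hq⟩ : ∃ p : Fin 6, ∀ v : Fin 6, (v = 2 ∨ v = 3) → lor a (oct v) = 0 → v = p := by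
        by_cases e : lor a (oct 2) = 0
        · refine ⟨2, ?_⟩
          rintro v (rfl | rfl) hv
          · rfl
          · exact absurd ⟨e, hv⟩ x23
        · refine ⟨3, ?_⟩
          rintro v (rfl | rfl) hv
          · exact absurd hv e
          · rfl
      obtain ⟨r, hr⟩ : ∃ p : Fin 6, ∀ v : Fin 6, (v = 4 ∨ v = 5) → lor a (oct v) = 0 → v = p := by
        by_cases e : lor a (oct 4) = 0
        · refine ⟨4, ?_⟩
          rintro v (rfl | rfl) hv
          · rfl
          · exact absurd ⟨e, hv⟩ x45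
        · refine ⟨5, ?_⟩
          rintro v (rfl | rfl) hv
          · exact absurd hv e
          · rfl
      have hall : ∀ v : Fin 6, (v = 0 ∨ v = 1) ∨ (v = 2 ∨ v = 3) ∨ (v = 4 ∨ v = 5) := by decide
      rcases hij with ⟨rfl, rfl⟩ | ⟨rfl, rfl⟩ | ⟨rfl, rfl⟩
      · refine ⟨q, r, ?_⟩
        rintro x ⟨v, hv, rfl⟩
        rcases hall v with h | h | h
        · rcases h with rfl | rfl
          · exact absurd hv hcon.1
          · exact absurd hv hcon.2
        · rw [hq v h hv]; simp
        · rw [hr v h hv]; simp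
      · refine ⟨p, r, ?_⟩
        rintro x ⟨v, hv, rfl⟩
        rcases hall v with h | h | h
        · rw [hp v h hv]; simp
        · rcases h with rfl | rfl
          · exact absurd hv hcon.1
          · exact absurd hv hcon.2
        · rw [hr v h hv]; simp
      · refine ⟨p, q, ?_⟩
        rintro x ⟨v, hv, rfl⟩
        rcases hall v with h | h | h
        · rw [hp v h hv]; simp
        · rw [hq v h hv]; simp
        · rcases h with rfl | rfl
          · exact absurd hv hcon.1
          · exact absurd hv hcon.2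
    obtain ⟨p, q, hpq⟩ := hz
    classical
    have h4 : Module.finrank ℝ (Submodule.span ℝ {x | ∃ v, lor a (oct v) = 0 ∧ x = oct v}) ≤
        Module.finrank ℝ (Submodule.span ℝ (({oct p, oct q} : Finset R31) : Set R31)) := by
      apply Submodule.finrank_mono
      apply Submodule.span_mono
      intro x hx
      simpa using hpq hx
    have h5 := finrank_span_finset_le_card (R := ℝ) ({oct p, oct q} : Finset R31)
    have h6 : ({oct p, oct q} : Finset R31).card ≤ 2 := Finset.card_le_two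
    have h7 := h4.trans (h5.trans h6)
    omega
  have q0 := key 0 1 (by simp)
  have q1 := key 2 3 (by simp)
  have q2 := key 4 5 (by simp)
  rw [lor_oct, lor_oct] at q0 q1 q2
  simp at q0 q1 q2
  have s0 : a 0 ^ 2 = 4 / 9 * a 3 ^ 2 := by
    rcases q0 with e | e
    · have : a 0 = -(2 / 3) * a 3 := by linarith
      rw [this]; ring
    · have : a 0 = (2 / 3) * a 3 := by linarith
      rw [this]; ring
  have s1 : a 1 ^ 2 = 4 / 9 * a 3 ^ 2 := by
    rcases q1 with e | e
    · have : a 1 = -(2 / 3) * a 3 := by linarith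
      rw [this]; ring
    · have : a 1 = (2 / 3) * a 3 := by linarith
      rw [this]; ring
  have s2 : a 2 ^ 2 = 4 / 9 * a 3 ^ 2 := by
    rcases q2 with e | e
    · have : a 2 = -(2 / 3) * a 3 := by linarith
      rw [this]; ring
    · have : a 2 = (2 / 3) * a 3 := by linarith
      rw [this]; ring
  refine ⟨![a 0, a 1, a 2, 4 / 3 * a 3], ?_, ?_⟩
  · simp [lor]; nlinarith
  · simp [lor]; nlinarith

/-- the orthogonal complement of a causal vector contains no timelike vectors -/
lemma no_timelike {a : R31} (h0 : 0 < a 3) (ha : a 0 ^ 2 + a 1 ^ 2 + a 2 ^ 2 ≤ a 3 ^ 2) {x : R31}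
    (hx : lor a x = 0) : 0 ≤ lor x x := by
  unfold lor at *
  have hcs : (a 0 * x 0 + a 1 * x 1 + a 2 * x 2) ^ 2 ≤
      (a 0 ^ 2 + a 1 ^ 2 + a 2 ^ 2) * (x 0 ^ 2 + x 1 ^ 2 + x 2 ^ 2) := by
    nlinarith [sq_nonneg (a 0 * x 1 - a 1 * x 0), sq_nonneg (a 0 * x 2 - a 2 * x 0),
      sq_nonneg (a 1 * x 2 - a 2 * x 1)]
  have h1 : a 0 * x 0 + a 1 * x 1 + a 2 * x 2 = a 3 * x 3 := by linarith
  rw [h1] at hcs
  have h2 : a 3 ^ 2 * x 3 ^ 2 ≤ a 3 ^ 2 * (x 0 ^ 2 + x 1 ^ 2 + x 2 ^ 2) := by
    calc a 3 ^ 2 * x 3 ^ 2 = (a 3 * x 3) ^ 2 := by ring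
      _ ≤ _ := hcs
      _ ≤ _ := mul_le_mul_of_nonneg_right ha (by positivity)
  have h3 := le_of_mul_le_mul_left h2 (by positivity)
  nlinarith

lemma convex_future : Convex ℝ {x : R31 | 0 ≤ x 3 ∧ x 0 ^ 2 + x 1 ^ 2 + x 2 ^ 2 ≤ x 3 ^ 2} := by
  rintro x ⟨hx3, hx⟩ y ⟨hy3, hy⟩ a b ha hb -
  refine ⟨?_, ?_⟩
  · simp only [Pi.add_apply, Pi.smul_apply, smul_eq_mul]
    positivity
  · simp only [Pi.add_apply, Pi.smul_apply, smul_eq_mul]
    have hcs : (x 0 * y 0 + x 1 * y 1 + x 2 * y 2) ^ 2 ≤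
        (x 0 ^ 2 + x 1 ^ 2 + x 2 ^ 2) * (y 0 ^ 2 + y 1 ^ 2 + y 2 ^ 2) := by
      nlinarith [sq_nonneg (x 0 * y 1 - x 1 * y 0), sq_nonneg (x 0 * y 2 - x 2 * y 0),
        sq_nonneg (x 1 * y 2 - x 2 * y 1)]
    have h1 : (x 0 * y 0 + x 1 * y 1 + x 2 * y 2) ^ 2 ≤ (x 3 * y 3) ^ 2 := by
      refine hcs.trans ?_
      rw [mul_pow]
      exact mul_le_mul hx hy (by positivity) (by positivity)
    have h2 : x 0 * y 0 + x 1 * y 1 + x 2 * y 2 ≤ x 3 * y 3 :=
      (abs_le_of_sq_le_sq' h1 (by positivity)).2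
    have h3 : 0 ≤ a * b := by positivity
    nlinarith [mul_le_mul_of_nonneg_left h2 h3, mul_le_mul_of_nonneg_left hx (sq_nonneg a),
      mul_le_mul_of_nonneg_left hy (sq_nonneg b)]

theorem future_of_strong {V : Type} [Fintype V] {n : V → R31} (hn : IsConvexCPoly n)
    (hS : StronglyHyperbolic n) : ∃ f ∈ cone n, lor f f ≤ 0 ∧ 0 < f 3 := by
  classical
  by_contra hcon
  push Not at hcon
  have hV : Nonempty V := by
    by_contra hV
    rw [not_nonempty_iff] at hV
    have h := hn.full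
    rw [range_eq_empty, Submodule.span_empty] at h
    have h1 : (fun _ => 1 : R31) ∈ (⊥ : Submodule ℝ R31) := h ▸ Submodule.mem_top
    rw [Submodule.mem_bot] at h1
    exact one_ne_zero (congrFun h1 0)
  obtain ⟨a, ha⟩ := hn.pointed
  -- the convex hull
  have hC1 : convexHull ℝ (range n) ⊆ cone n := by
    refine convexHull_min ?_ ?_
    · rintro _ ⟨v, rfl⟩
      refine ⟨fun w => if w = v then 1 else 0, fun w => by dsimp only; split_ifs <;> norm_num, ?_⟩
      simp
    · rintro x ⟨c, hc, rfl⟩ y ⟨d, hd, rfl⟩ s t hs ht -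
      refine ⟨fun v => s * c v + t * d v, fun v => by
        have := hc v
        have := hd v
        positivity, ?_⟩
      rw [Finset.smul_sum, Finset.smul_sum, ← Finset.sum_add_distrib]
      refine Finset.sum_congr rfl fun v _ => ?_
      rw [smul_smul, smul_smul, add_smul]
  have hC2 : convexHull ℝ (range n) ⊆ {x | 0 < lor a x} := by
    refine convexHull_min ?_ ?_
    · rintro _ ⟨v, rfl⟩
      exact ha v
    · intro x hx y hy s t hs ht hst
      rw [mem_ofPred_eq] at hx hy ⊢
      rw [lor_add_right, lor_smul_right, lor_smul_right]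
      rcases hs.eq_or_lt with rfl | hs'
      · have : t = 1 := by linarith
        subst this
        linarith
      · have h1 := mul_pos hs' hx
        have h2 := mul_nonneg ht hy.le
        linarith
  have hdisj : Disjoint (convexHull ℝ (range n))
      {x : R31 | 0 ≤ x 3 ∧ x 0 ^ 2 + x 1 ^ 2 + x 2 ^ 2 ≤ x 3 ^ 2} := by
    rw [disjoint_left]
    rintro x hx ⟨hx3, hx⟩
    have h1 := hcon x (hC1 ‹_›) (by unfold lor; nlinarith)
    have h3 : x 3 = 0 := le_antisymm h1 hx3
    rw [h3] at hx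
    have h0 : x 0 = 0 := by nlinarith [sq_nonneg (x 0), sq_nonneg (x 1), sq_nonneg (x 2)]
    have h1' : x 1 = 0 := by nlinarith [sq_nonneg (x 0), sq_nonneg (x 1), sq_nonneg (x 2)]
    have h2 : x 2 = 0 := by nlinarith [sq_nonneg (x 0), sq_nonneg (x 1), sq_nonneg (x 2)]
    have h4 : 0 < lor a x := hC2 ‹_›
    unfold lor at h4
    rw [h0, h1', h2, h3] at h4
    linarith
  have hcl : IsClosed {x : R31 | 0 ≤ x 3 ∧ x 0 ^ 2 + x 1 ^ 2 + x 2 ^ 2 ≤ x 3 ^ 2} :=
    (isClosed_le continuous_const (continuous_apply 3)).inter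
      (isClosed_le (f := fun x : R31 => x 0 ^ 2 + x 1 ^ 2 + x 2 ^ 2) (g := fun x : R31 => x 3 ^ 2)
        (by fun_prop) (by fun_prop))
  obtain ⟨f, u, w, hfu, huw, hwf⟩ := geometric_hahn_banach_compact_closed
    (convex_convexHull ℝ (range n)) ((finite_range n).isCompact_convexHull ℝ) convex_future hcl hdisj
  have hw0 : w < 0 := by
    have := hwf 0 (by simp)
    rwa [map_zero] at this
  have hfut : ∀ x : R31, 0 ≤ x 3 → x 0 ^ 2 + x 1 ^ 2 + x 2 ^ 2 ≤ x 3 ^ 2 → 0 ≤ f x := by
    intro x hx3 hx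
    by_contra hneg
    push Not at hneg
    have h1 : (w / f x) • x ∈ {x : R31 | 0 ≤ x 3 ∧ x 0 ^ 2 + x 1 ^ 2 + x 2 ^ 2 ≤ x 3 ^ 2} := by
      have hpos : 0 < w / f x := div_pos_of_neg_of_neg hw0 hneg
      refine ⟨?_, ?_⟩
      · simp only [Pi.smul_apply, smul_eq_mul]
        positivity
      · simp only [Pi.smul_apply, smul_eq_mul]
        have := mul_le_mul_of_nonneg_left hx (sq_nonneg (w / f x))
        nlinarith
    have h2 := hwf _ h1
    rw [map_smul, smul_eq_mul, div_mul_cancel₀ _ hneg.ne] at h2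
    exact lt_irrefl _ h2
  -- the vector `b`
  let b : R31 := ![-f (Pi.single 0 1), -f (Pi.single 1 1), -f (Pi.single 2 1), f (Pi.single 3 1)]
  have hb : ∀ x, lor b x = -f x := by
    intro x
    have h1 : x = x 0 • (Pi.single 0 1 : R31) + x 1 • (Pi.single 1 1 : R31) +
        x 2 • (Pi.single 2 1 : R31) + x 3 • (Pi.single 3 1 : R31) := by
      funext i
      fin_cases i <;> simp
    conv_rhs => rw [h1]
    simp only [map_add, map_smul, smul_eq_mul, lor, b]
    simp
    ring
  have hbn : ∀ v, 0 < lor b (n v) := by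
    intro v
    rw [hb]
    have := hfu (n v) (subset_convexHull ℝ _ ⟨v, rfl⟩)
    linarith
  have hb3 : 0 ≤ b 3 := by
    have := hfut (Pi.single 3 1) (by simp) (by simp)
    simpa [b] using this
  have hbc : b 0 ^ 2 + b 1 ^ 2 + b 2 ^ 2 ≤ b 3 ^ 2 := by
    set r := √(b 0 ^ 2 + b 1 ^ 2 + b 2 ^ 2) with hr
    have hr2 : r ^ 2 = b 0 ^ 2 + b 1 ^ 2 + b 2 ^ 2 := Real.sq_sqrt (by positivity)
    have hr0 : 0 ≤ r := Real.sqrt_nonneg _
    have h1 := hfut ![b 0, b 1, b 2, r] (by simpa using hr0) (by simp [hr2])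
    have h2 := hb ![b 0, b 1, b 2, r]
    have h3 : lor b ![b 0, b 1, b 2, r] = r ^ 2 - b 3 * r := by
      unfold lor
      simp
      nlinarith
    rw [h3] at h2
    have h4 : r ^ 2 ≤ b 3 * r := by linarith
    rw [← hr2]
    rcases hr0.eq_or_lt with h | h
    · rw [← h, zero_pow two_ne_zero]
      exact sq_nonneg _
    · have : r ≤ b 3 := by nlinarith
      nlinarith
  have hb3' : 0 < b 3 := by
    rcases hb3.eq_or_lt with h | h
    · exfalso
      obtain ⟨v⟩ := hV
      have h1 := hbn v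
      rw [← h] at hbc
      have h0 : b 0 = 0 := by nlinarith [sq_nonneg (b 0), sq_nonneg (b 1), sq_nonneg (b 2)]
      have h1' : b 1 = 0 := by nlinarith [sq_nonneg (b 0), sq_nonneg (b 1), sq_nonneg (b 2)]
      have h2 : b 2 = 0 := by nlinarith [sq_nonneg (b 0), sq_nonneg (b 1), sq_nonneg (b 2)]
      unfold lor at h1
      rw [h0, h1', h2, ← h] at h1
      linarith
    · exact h
  -- a future vector outside the dual cone
  obtain ⟨v0⟩ := hV
  obtain ⟨x0, hx03, hx0, hxv⟩ : ∃ x0 : R31, 0 < x0 3 ∧ x0 0 ^ 2 + x0 1 ^ 2 + x0 2 ^ 2 ≤ x0 3 ^ 2 ∧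
      lor x0 (n v0) < 0 := by
    have hsp := hn.spacelike v0
    unfold lor at hsp
    set y := n v0 with hy
    set r := √(y 0 ^ 2 + y 1 ^ 2 + y 2 ^ 2) with hr
    have hr2 : r ^ 2 = y 0 ^ 2 + y 1 ^ 2 + y 2 ^ 2 := Real.sq_sqrt (by positivity)
    have hr0 : 0 ≤ r := Real.sqrt_nonneg _
    have h1 : y 3 ^ 2 < r ^ 2 := by nlinarith
    have h2 : |y 3| < r := abs_lt_of_sq_lt_sq h1 hr0
    rw [abs_lt] at h2
    have hr1 : 0 < r := by linarith
    refine ⟨![-y 0, -y 1, -y 2, r], by simpa using hr1, by simp [hr2], ?_⟩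
    unfold lor
    simp
    nlinarith
  have : Nonempty V := ⟨v0⟩
  obtain ⟨v1, hv1⟩ := Finite.exists_max (fun v => -lor x0 (n v) / lor b (n v))
  set c := -lor x0 (n v1) / lor b (n v1) with hc
  have hc0 : 0 < c := lt_of_lt_of_le (div_pos (by linarith) (hbn v0)) (hv1 v0)
  have hlin : ∀ v, lor (x0 + c • b) (n v) = lor x0 (n v) + c * lor b (n v) := by
    intro v
    rw [lor_comm, lor_add_right, lor_smul_right, lor_comm (n v) x0, lor_comm (n v) b]
  have ha3 : 0 < (x0 + c • b) 3 := by
    simp only [Pi.add_apply, Pi.smul_apply, smul_eq_mul]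
    positivity
  obtain ⟨x, hx1, hx2⟩ := hS (x0 + c • b) (fun h => by
      rw [h] at ha3
      exact lt_irrefl _ ha3) (fun v => by
      rw [hlin]
      have h1 := hv1 v
      rw [div_le_iff₀ (hbn v)] at h1
      linarith) ⟨v1, by
      rw [hlin, hc, div_mul_cancel₀ _ (hbn v1).ne']
      ring⟩
  refine absurd (no_timelike ha3 ?_ hx1) (not_le.2 hx2)
  simp only [Pi.add_apply, Pi.smul_apply, smul_eq_mul]
  have hcs : (x0 0 * b 0 + x0 1 * b 1 + x0 2 * b 2) ^ 2 ≤
      (x0 0 ^ 2 + x0 1 ^ 2 + x0 2 ^ 2) * (b 0 ^ 2 + b 1 ^ 2 + b 2 ^ 2) := by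
    nlinarith [sq_nonneg (x0 0 * b 1 - x0 1 * b 0), sq_nonneg (x0 0 * b 2 - x0 2 * b 0),
      sq_nonneg (x0 1 * b 2 - x0 2 * b 1)]
  have h1 : (x0 0 * b 0 + x0 1 * b 1 + x0 2 * b 2) ^ 2 ≤ (x0 3 * b 3) ^ 2 := by
    refine hcs.trans ?_
    rw [mul_pow]
    exact mul_le_mul hx0 hbc (by positivity) (by positivity)
  have h2 : x0 0 * b 0 + x0 1 * b 1 + x0 2 * b 2 ≤ x0 3 * b 3 :=
    (abs_le_of_sq_le_sq' h1 (by positivity)).2
  nlinarith [mul_le_mul_of_nonneg_left h2 hc0.le, mul_le_mul_of_nonneg_left hbc (sq_nonneg c)]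

/-- **Answer.** (1) There is a hyperbolic convex locally shallow c-polyhedron which is not globally
shallow, hyperbolicity referring to the support hyperplanes along the facets. (2) For every convex
locally shallow c-polyhedron all inversive distances are positive;
if its cone contains a causal vector with positive last coordinate, or if some edge has inversive
distance at least `1`, then it is globally shallow; and otherwise the c-polyhedron obtained by
replacing all vectors by their negatives (all disks by the complementary open disks) is globally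
shallow. (3) A convex locally shallow c-polyhedron is globally shallow if all support hyperplanes of
its cone, also those which touch it in a vertex ray or in an edge only, meet the interior of the
light cone. -/
theorem result :
    (∃ n : Fin 6 → R31, IsConvexCPoly n ∧ Hyperbolic n ∧ LocallyShallow n ∧
      ¬ GloballyShallow n) ∧
    ∀ (V : Type) [Fintype V] (n : V → R31), IsConvexCPoly n → LocallyShallow n →
      (∀ v w, v ≠ w → 0 < inv (n v) (n w)) ∧
      ((∃ f ∈ cone n, lor f f ≤ 0 ∧ 0 < f 3) → GloballyShallow n) ∧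
      ((∃ v w, Adj n v w ∧ 1 ≤ inv (n v) (n w)) → GloballyShallow n) ∧
      (¬ (∃ f ∈ cone n, lor f f ≤ 0 ∧ 0 < f 3) → GloballyShallow (fun v => -n v)) ∧
      (StronglyHyperbolic n → GloballyShallow n) := by
  refine ⟨⟨oct, oct_convex, oct_hyperbolic, oct_local, oct_not_global⟩, ?_⟩
  intro V _ n hn hloc
  have hneg := lor_neg hn hloc
  have hpos : ∀ v w, v ≠ w → 0 < inv (n v) (n w) := fun v w hvw =>
    (inv_pos_iff (hn.spacelike v) (hn.spacelike w)).2 (hneg v w hvw.symm)
  have hfut : (∃ f ∈ cone n, lor f f ≤ 0 ∧ 0 < f 3) → GloballyShallow n := by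
    rintro ⟨f, hf, hff, hf3⟩ v w hvw
    refine ⟨hpos v w hvw, fun hinv => ?_⟩
    exact disjoint_of_future (hn.spacelike v) (hn.spacelike w) (qq_facts hn hinv).1
      (future_of_future hn hneg hf hff hf3 hinv)
  refine ⟨hpos, hfut, ?_, ?_, fun hS => hfut (future_of_strong hn hS)⟩
  · rintro ⟨v, w, hadj, hinv⟩
    apply hfut
    obtain ⟨h1, h3⟩ := qq_facts hn hinv
    refine ⟨qq (n v) (n w), qq_mem_cone hadj.1, h1, ?_⟩
    by_contra hcon
    have hlt : qq (n v) (n w) 3 < 0 := lt_of_le_of_ne (not_lt.1 hcon) h3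
    obtain ⟨a, ha⟩ := hn.pointed
    have h4 := nonempty_of_past (hn.spacelike v) (hn.spacelike w) (ha v) (ha w)
      ((one_le_inv_iff (hn.spacelike v) (hn.spacelike w)).1 hinv) hlt
    rw [(hloc v w hadj).2 hinv] at h4
    exact not_nonempty_empty h4
  · intro hno v w hvw
    refine ⟨?_, fun hinv => ?_⟩
    · simp only [inv_neg_neg]; exact hpos v w hvw
    · simp only [inv_neg_neg] at hinv
      obtain ⟨h1, h3⟩ := qq_facts hn hinv
      have hlt : qq (n v) (n w) 3 < 0 := by
        refine lt_of_le_of_ne ?_ h3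
        by_contra hcon
        exact hno ⟨qq (n v) (n w), qq_mem_cone hvw, h1, not_le.1 hcon⟩
      apply disjoint_of_future
      · simp only [lor_neg_neg]; exact hn.spacelike v
      · simp only [lor_neg_neg]; exact hn.spacelike w
      · rw [qq_neg, lor_neg_neg]; exact h1
      · rw [qq_neg]; simp only [Pi.neg_apply]; linarith

end Pool.Agent.Results.MP_625e57_gt.Orientation
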